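import Mathlib
import Pool.Agent.V1149.Books.Basic
import Pool.Agent.V1149.Books.E0
import Pool.Agent.V1149.Books.E1
import Pool.Agent.V1149.Books.E2
import Pool.Agent.V1149.Books.E3
import Pool.Agent.V1149.Books.E4
import Pool.Agent.V1149.Books.E5
import Pool.Agent.V1149.Books.O0
import Pool.Agent.V1149.Books.O1
import Pool.Agent.V1149.Books.Necessary

/-!
# Which books are super edge-magic?

The book `B_n = K_{1,n} □ K_2` with `n ≥ 5` pages is super edge-magic if and only if `n` is even or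
`n ≡ 5 (mod 8)`.
-/

namespace Pool.Agent.Results.MP_a60869_co.BooksSEM

open Pool.Agent.V1149.Labeling Pool.Agent.V1149.Books SimpleGraph

lemma sem5 : IsSuperEdgeMagic (book 5) :=
  sem_of_chk 5 1 6 4 [(3, 12), (4, 10), (5, 7), (8, 11), (9, 2)] (by decide +kernel)

lemma sem6 : IsSuperEdgeMagic (book 6) :=
  sem_of_chk 6 5 10 6 [(1, 12), (2, 8), (3, 11), (4, 13), (6, 14), (7, 9)] (by decide +kernel)

lemma sem10 : IsSuperEdgeMagic (book 10) :=
  sem_of_chk 10 1 22 8 [(7, 2), (9, 4), (10, 5), (11, 6), (13, 3), (17, 14), (18, 15), (19, 16), (20, 12), (21, 8)] (by decide +kernel)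

lemma sem12 : IsSuperEdgeMagic (book 12) :=
  sem_of_chk 12 4 23 9 [(5, 8), (6, 9), (7, 11), (10, 2), (12, 21), (15, 20), (16, 1), (17, 22), (19, 3), (24, 18), (25, 13), (26, 14)] (by decide +kernel)

lemma sem13 : IsSuperEdgeMagic (book 13) :=
  sem_of_chk 13 1 13 5 [(4, 25), (5, 21), (6, 27), (7, 23), (8, 14), (9, 15), (10, 22), (11, 2), (16, 28), (17, 26), (18, 24), (19, 12), (20, 3)] (by decide +kernel)

lemma sem21 : IsSuperEdgeMagic (book 21) :=
  sem_of_chk 21 1 20 6 [(5, 35), (6, 40), (7, 32), (8, 36), (9, 41), (10, 38), (11, 34), (12, 21), (13, 22), (14, 33), (15, 23), (16, 2), (18, 31), (19, 17), (24, 43), (25, 44), (26, 42), (27, 39), (28, 37), (29, 3), (30, 4)] (by decide +kernel)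

/-- **The conjecture of Figueroa-Centeno, Ichishima and Muntaner-Batle.** For `n ≥ 5` the book
`B_n` is super edge-magic if and only if `n` is even or `n ≡ 5 (mod 8)`. -/
theorem result (n : ℕ) (hn : 5 ≤ n) :
    IsSuperEdgeMagic (book n) ↔ (Even n ∨ n % 8 = 5) := by
  constructor
  · exact necessary n
  · intro h
    have h' : n % 2 = 0 ∨ n % 8 = 5 := h.imp Nat.even_iff.1 id
    rcases h' with h | h
    · have hc : n = 6 ∨ n = 10 ∨ n = 12 ∨ (∃ t, n = 12 * t + 24) ∨ (∃ t, n = 12 * t + 14) ∨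
          (∃ t, n = 12 * t + 16) ∨ (∃ t, n = 12 * t + 18) ∨ (∃ t, n = 12 * t + 8) ∨
          (∃ t, n = 12 * t + 22) := by
        have hr : n % 12 = 0 ∨ n % 12 = 2 ∨ n % 12 = 4 ∨ n % 12 = 6 ∨ n % 12 = 8 ∨ n % 12 = 10 := by
          omega
        rcases hr with h | h | h | h | h | h
        · by_cases h2 : n = 12
          · omega
          · exact Or.inr (Or.inr (Or.inr (Or.inl ⟨(n - 24) / 12, by omega⟩)))
        · exact Or.inr (Or.inr (Or.inr (Or.inr (Or.inl ⟨(n - 14) / 12, by omega⟩))))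
        · exact Or.inr (Or.inr (Or.inr (Or.inr (Or.inr (Or.inl ⟨(n - 16) / 12, by omega⟩)))))
        · by_cases h2 : n = 6
          · omega
          · exact Or.inr (Or.inr (Or.inr (Or.inr (Or.inr (Or.inr (Or.inl
              ⟨(n - 18) / 12, by omega⟩))))))
        · exact Or.inr (Or.inr (Or.inr (Or.inr (Or.inr (Or.inr (Or.inr (Or.inl
              ⟨(n - 8) / 12, by omega⟩)))))))
        · by_cases h2 : n = 10
          · omega
          · exact Or.inr (Or.inr (Or.inr (Or.inr (Or.inr (Or.inr (Or.inr (Or.inr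
              ⟨(n - 22) / 12, by omega⟩)))))))
      rcases hc with rfl | rfl | rfl | ⟨t, rfl⟩ | ⟨t, rfl⟩ | ⟨t, rfl⟩ | ⟨t, rfl⟩ | ⟨t, rfl⟩ | ⟨t, rfl⟩
      · exact sem6
      · exact sem10
      · exact sem12
      · exact LE0_sem t
      · exact LE1_sem t
      · exact LE2_sem t
      · exact LE3_sem t
      · exact LE4_sem t
      · exact LE5_sem t
    · have hc : n = 5 ∨ n = 13 ∨ n = 21 ∨ (∃ t, n = 16 * t + 37) ∨ (∃ t, n = 16 * t + 29) := by
        have hr : n % 16 = 5 ∨ n % 16 = 13 := by omega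
        rcases hr with h | h
        · by_cases h2 : n = 5 ∨ n = 21
          · omega
          · exact Or.inr (Or.inr (Or.inr (Or.inl ⟨(n - 37) / 16, by omega⟩)))
        · by_cases h2 : n = 13
          · omega
          · exact Or.inr (Or.inr (Or.inr (Or.inr ⟨(n - 29) / 16, by omega⟩)))
      rcases hc with rfl | rfl | rfl | ⟨t, rfl⟩ | ⟨t, rfl⟩
      · exact sem5
      · exact sem13
      · exact sem21
      · exact LO0_sem t
      · exact LO1_sem t

end Pool.Agent.Results.MP_a60869_co.BooksSEM
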